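import Mathlib

set_option autoImplicit false

/-! Tangential data for a pair of kernels, and the one vector extension. -/

open scoped BigOperators ComplexConjugate ComplexOrder

namespace Pool.Agent.H159.CPair

lemma gram_of_psd {ι : Type*} [Finite ι] {M : Matrix ι ι ℂ} (h : M.PosSemidef) :
    ∃ m : ℕ, ∀ N, m ≤ N → ∃ α : ι → EuclideanSpace ℂ (Fin N), M = Matrix.gram ℂ α := by
  obtain ⟨m, v, hv⟩ := Matrix.posSemidef_iff_eq_sum_vecMulVec.1 h
  refine ⟨m, fun N hN => ⟨fun i => WithLp.toLp 2 (fun s : Fin N =>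
    if h : s.val < m then conj (v ⟨s.val, h⟩ i) else 0), ?_⟩⟩
  ext i j
  rw [Matrix.gram_apply, hv, PiLp.inner_apply]
  simp only [Matrix.sum_apply, Matrix.vecMulVec_apply, Pi.star_apply]
  set f : ℕ → ℂ := fun s => if h : s < m then v ⟨s, h⟩ i * star (v ⟨s, h⟩ j) else 0 with hf
  have h1 : ∑ s : Fin m, v s i * star (v s j) = ∑ s ∈ Finset.range m, f s := by
    rw [← Fin.sum_univ_eq_sum_range]
    refine Finset.sum_congr rfl fun s _ => ?_
    rw [hf]
    simp
  have h2 : ∑ s ∈ Finset.range m, f s = ∑ s ∈ Finset.range N, f s := by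
    refine Finset.sum_subset (Finset.range_mono hN) fun s _ hs => ?_
    rw [hf]
    simp only
    rw [dif_neg (fun h => hs (Finset.mem_range.2 h))]
  rw [h1, h2, ← Fin.sum_univ_eq_sum_range]
  refine Finset.sum_congr rfl fun s _ => ?_
  rw [hf]
  simp only
  by_cases h : s.val < m
  · simp only [h, dif_pos]
    simp [mul_comm]
  · simp only [h, dif_neg, not_false_eq_true]
    simp

section lemP

variable {E F G : Type*} [NormedAddCommGroup E] [InnerProductSpace ℂ E] [CompleteSpace E]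
  [NormedAddCommGroup F] [InnerProductSpace ℂ F]
  [NormedAddCommGroup G] [InnerProductSpace ℂ G] [CompleteSpace G]
  {ι : Type*} [Fintype ι]

lemma lemP (α : ι → G) (lam : ι → F) (mu : ι → E) {l0 k0 : ℝ} (hl : 0 < l0) (hk : 0 < k0)
    (h : ∀ c : ι → ℂ, ‖∑ i, c i • lam i‖ ^ 2 ≤
      l0 * (‖∑ i, c i • α i‖ ^ 2 + ‖∑ i, c i • mu i‖ ^ 2 / k0)) (v : F) :
    ∃ (g : G) (u : E), (∀ i, inner ℂ v (lam i) = inner ℂ g (α i) + inner ℂ u (mu i)) ∧
      ‖g‖ ^ 2 + k0 * ‖u‖ ^ 2 ≤ l0 * ‖v‖ ^ 2 := by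
  classical
  set s : ℝ := (Real.sqrt k0)⁻¹ with hs
  have hs2 : s ^ 2 = 1 / k0 := by
    rw [hs, inv_pow, Real.sq_sqrt hk.le, one_div]
  have hs0 : 0 < s := by positivity
  set w : ι → WithLp 2 (G × E) := fun i => WithLp.toLp 2 (α i, (s : ℂ) • mu i) with hw
  have hnorm : ∀ c : ι → ℂ, ‖∑ i, c i • w i‖ ^ 2 =
      ‖∑ i, c i • α i‖ ^ 2 + ‖∑ i, c i • mu i‖ ^ 2 / k0 := by
    intro c
    rw [WithLp.prod_norm_sq_eq_of_L2]
    have e1 : (∑ i, c i • w i).fst = ∑ i, c i • α i := by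
      exact map_sum ((LinearMap.fst ℂ G E).comp (WithLp.linearEquiv 2 ℂ (G × E)).toLinearMap)
        (fun i => c i • w i) Finset.univ
    have e2 : (∑ i, c i • w i).snd = (s : ℂ) • ∑ i, c i • mu i := by
      rw [Finset.smul_sum]
      refine Eq.trans (map_sum ((LinearMap.snd ℂ G E).comp
        (WithLp.linearEquiv 2 ℂ (G × E)).toLinearMap) (fun i => c i • w i) Finset.univ) ?_
      refine Finset.sum_congr rfl fun i _ => ?_
      change c i • (s : ℂ) • mu i = _
      rw [smul_comm]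
    rw [e1, e2, norm_smul, mul_pow, Complex.norm_real, Real.norm_eq_abs, sq_abs, hs2]
    ring
  set D : (ι → ℂ) →ₗ[ℂ] WithLp 2 (G × E) := Fintype.linearCombination ℂ w with hD
  have hDapp : ∀ c, D c = ∑ i, c i • w i := fun c => Fintype.linearCombination_apply ℂ w c
  set L : (ι → ℂ) →ₗ[ℂ] F := Fintype.linearCombination ℂ lam with hL
  have hLapp : ∀ c, L c = ∑ i, c i • lam i := fun c => Fintype.linearCombination_apply ℂ lam c
  have hb : ∀ c, ‖L c‖ ^ 2 ≤ l0 * ‖D c‖ ^ 2 := by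
    intro c
    rw [hDapp, hnorm, hLapp]
    exact h c
  obtain ⟨r, hr⟩ := LinearMap.exists_rightInverse_of_surjective D.rangeRestrict
    (LinearMap.range_rangeRestrict D)
  have hr' : ∀ y : LinearMap.range D, D (r y) = y := by
    intro y
    have := congrArg (fun f => ((f y : LinearMap.range D) : WithLp 2 (G × E))) hr
    simpa using this
  set f : LinearMap.range D →ₗ[ℂ] ℂ := (innerSL ℂ v).toLinearMap.comp (L.comp r) with hf
  have hfapp : ∀ y, f y = inner ℂ v (L (r y)) := fun y => rfl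
  have hbd : ∀ y : LinearMap.range D, ‖f y‖ ≤ (‖v‖ * Real.sqrt l0) * ‖y‖ := by
    intro y
    rw [hfapp]
    have h1 : ‖L (r y)‖ ≤ Real.sqrt l0 * ‖y‖ := by
      have h2 := hb (r y)
      rw [hr' y] at h2
      refine le_of_sq_le_sq ?_ (by positivity)
      rw [mul_pow, Real.sq_sqrt hl.le]
      exact h2
    calc ‖inner ℂ v (L (r y))‖ ≤ ‖v‖ * ‖L (r y)‖ := norm_inner_le_norm _ _
      _ ≤ ‖v‖ * (Real.sqrt l0 * ‖y‖) := mul_le_mul_of_nonneg_left h1 (norm_nonneg _)
      _ = _ := by ring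
  set fc : StrongDual ℂ (LinearMap.range D) := LinearMap.mkContinuous f _ hbd with hfc
  obtain ⟨gf, hgf1, hgf2⟩ := exists_extension_norm_eq (LinearMap.range D) fc
  have hgn : ‖gf‖ ≤ ‖v‖ * Real.sqrt l0 := by
    rw [hgf2]
    exact LinearMap.mkContinuous_norm_le _ (by positivity) _
  set y := (InnerProductSpace.toDual ℂ (WithLp 2 (G × E))).symm gf with hy
  have hyi : ∀ x, inner ℂ y x = gf x := fun x => by
    rw [hy, InnerProductSpace.toDual_symm_apply]
  have hyn : ‖y‖ = ‖gf‖ := by rw [hy, LinearIsometryEquiv.norm_map]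
  refine ⟨y.fst, (s : ℂ) • y.snd, fun i => ?_, ?_⟩
  · have h1 : inner ℂ y (w i) = inner ℂ v (lam i) := by
      rw [hyi]
      have h2 : D (Pi.single i 1) = w i := by
        rw [hDapp, Finset.sum_eq_single i]
        · simp
        · intro j _ hj; rw [Pi.single_eq_of_ne hj, zero_smul]
        · intro hh; exact absurd (Finset.mem_univ i) hh
      have h3 : L (Pi.single i 1) = lam i := by
        rw [hLapp, Finset.sum_eq_single i]
        · simp
        · intro j _ hj; rw [Pi.single_eq_of_ne hj, zero_smul]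
        · intro hh; exact absurd (Finset.mem_univ i) hh
      have h4 := hgf1 ⟨w i, ⟨_, h2⟩⟩
      have h5 : fc ⟨w i, ⟨_, h2⟩⟩ = inner ℂ v (L (r ⟨w i, ⟨_, h2⟩⟩)) := rfl
      have h6 : L (r ⟨w i, ⟨_, h2⟩⟩) = lam i := by
        rw [← h3, ← sub_eq_zero, ← map_sub]
        have h7 := hb (r ⟨w i, ⟨_, h2⟩⟩ - Pi.single i 1)
        rw [map_sub D, hr', h2, sub_self, norm_zero] at h7
        have h8 : ‖L (r ⟨w i, ⟨_, h2⟩⟩ - Pi.single i 1)‖ ^ 2 ≤ 0 := by simpa using h7
        exact norm_eq_zero.1 (by nlinarith [norm_nonneg (L (r ⟨w i, ⟨_, h2⟩⟩ - Pi.single i 1))])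
      rw [h4, h5, h6]
    rw [← h1, WithLp.prod_inner_apply]
    congr 1
    change inner ℂ y.snd ((s : ℂ) • mu i) = _
    rw [inner_smul_right, inner_smul_left, Complex.conj_ofReal]
  · have h1 : ‖y‖ ^ 2 ≤ l0 * ‖v‖ ^ 2 := by
      calc ‖y‖ ^ 2 ≤ (‖v‖ * Real.sqrt l0) ^ 2 :=
            pow_le_pow_left₀ (norm_nonneg _) (by rw [hyn]; exact hgn) 2
        _ = l0 * ‖v‖ ^ 2 := by rw [mul_pow, Real.sq_sqrt hl.le]; ring
    rw [WithLp.prod_norm_sq_eq_of_L2] at h1
    rw [norm_smul, mul_pow, Complex.norm_real, Real.norm_eq_abs, sq_abs, hs2]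
    have : k0 * (1 / k0 * ‖y.snd‖ ^ 2) = ‖y.snd‖ ^ 2 := by field_simp
    rw [this]
    exact h1

end lemP

end Pool.Agent.H159.CPair
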