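import Pool.Agent.H159.CPair.Main

set_option autoImplicit false

open scoped BigOperators ComplexConjugate ComplexOrder

namespace Pool.Agent.H159.CPair

variable {X : Type*}

lemma AM_herm {k l : X → X → ℂ} (hk : ∀ x y, conj (k x y) = k y x)
    (hl : ∀ x y, conj (l x y) = l y x) {ι : Type*} (z : ι → X)
    {P Q : Matrix ι ι ℂ} (hP : P.IsHermitian) (hQ : Q.IsHermitian) :
    (AM k l z P Q).IsHermitian := by
  ext i j
  have hPh := congrFun (congrFun hP i) j
  have hQh := congrFun (congrFun hQ i) j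
  simp only [Matrix.conjTranspose_apply] at hPh hQh
  simp only [AM, Matrix.conjTranspose_apply, Matrix.of_apply]
  rw [← hPh, ← hQh]
  simp only [RCLike.star_def, map_sub, map_mul, hk, hl]

lemma gram_herm {V : Type*} [NormedAddCommGroup V] [InnerProductSpace ℂ V] {ι : Type*}
    (v : ι → V) : (Matrix.gram ℂ v).IsHermitian := by
  ext i j
  simp [Matrix.conjTranspose_apply, Matrix.gram_apply]

lemma Ker.mul {k l : X → X → ℂ} (hk : Ker k) (hl : Ker l) : Ker fun x y => k x y * l x y where
  herm x y := by simp only [map_mul, hk.herm, hl.herm]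
  pos x := by
    rw [hk.real x, hl.real x, ← Complex.ofReal_mul, Complex.ofReal_re]
    exact mul_pos (hk.pos x) (hl.pos x)

/-- tensor vectors -/
noncomputable def tv {M N : ℕ} (a : EuclideanSpace ℂ (Fin M)) (r : Fin N) :
    EuclideanSpace ℂ (Fin M × Fin N) :=
  WithLp.toLp 2 fun s => a s.1 * (if s.2 = r then 1 else 0)

lemma inner_tv {M N : ℕ} (a b : EuclideanSpace ℂ (Fin M)) (r s : Fin N) :
    inner ℂ (tv a r) (tv b s) = inner ℂ a b * (1 : Matrix (Fin N) (Fin N) ℂ) r s := by
  rw [PiLp.inner_apply, PiLp.inner_apply, Fintype.sum_prod_type, Finset.sum_mul]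
  refine Finset.sum_congr rfl fun i _ => ?_
  rw [Matrix.one_apply, Finset.sum_eq_single r]
  · simp only [tv, RCLike.inner_apply]
    by_cases h : r = s
    · simp [h]
    · simp [h]
  · intro t _ ht
    simp [tv, ht]
  · intro h; exact absurd (Finset.mem_univ _) h

section
variable [DecidableEq X] {k l h : X → X → ℂ}

/-- extension to a finite set -/
theorem finite_ext (hk : Ker k) (hl : Ker l)
    (hpsd : ∀ T : Finset X, (Matrix.of fun x y : T => h x.1 y.1).PosSemidef) (hCP : CP k l)
    {m N : ℕ} (z : Fin m → X) (W : Fin m → Matrix (Fin N) (Fin N) ℂ)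
    (hW : (blockM k (fun x y => l x y * h x y) z W).PosSemidef) (T : Finset X)
    (hz : ∀ i, z i ∈ T) :
    ∃ Φ : X → Matrix (Fin N) (Fin N) ℂ, (∀ i, Φ (z i) = W i) ∧ (∀ x, x ∉ T → Φ x = 0) ∧
      (blockM k (fun x y => l x y * h x y) (fun x : T => x.1) (fun x : T => Φ x.1)).PosSemidef := by
  obtain ⟨M, hM⟩ := gram_of_psd (hpsd T)
  obtain ⟨a, ha⟩ := hM M le_rfl
  set a' : X → EuclideanSpace ℂ (Fin M) := fun x => if hx : x ∈ T then a ⟨x, hx⟩ else 0 with ha'
  have ha'T : ∀ x y, x ∈ T → y ∈ T → inner ℂ (a' x) (a' y) = h x y := by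
    intro x y hx hy
    have h1 := congrFun (congrFun ha ⟨x, hx⟩) ⟨y, hy⟩
    simp only [Matrix.of_apply, Matrix.gram_apply] at h1
    rw [ha']
    simp only [dif_pos hx, dif_pos hy]
    exact h1.symm
  have hA : (AM k l (fun b : Fin m × Fin N => z b.1)
      (Matrix.gram ℂ fun b : Fin m × Fin N => adjv (W b.1) b.2)
      (Matrix.gram ℂ fun b : Fin m × Fin N => tv (a' (z b.1)) b.2)).PosSemidef := by
    have e1 : AM k l (fun b : Fin m × Fin N => z b.1)
      (Matrix.gram ℂ fun b : Fin m × Fin N => adjv (W b.1) b.2)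
      (Matrix.gram ℂ fun b : Fin m × Fin N => tv (a' (z b.1)) b.2) =
      blockM k (fun x y => l x y * h x y) z W := by
      ext b c
      simp only [AM, blockM, Matrix.of_apply, Matrix.gram_apply, inner_adjv, inner_tv,
        ha'T _ _ (hz _) (hz _)]
      ring
    rw [e1]; exact hW
  have e : Fin T.card ≃ T := (T.equivFin).symm
  obtain ⟨u, hu⟩ := ext_many hk hl T (fun q _ => star_all hk hl hCP T q)
    (fun b : Fin m × Fin N => z b.1) (fun b => hz b.1) _ _ hA (Fin T.card × Fin N)
    (fun c => (e c.1).1) (fun c => (e c.1).2) (fun c => tv (a' (e c.1).1) c.2)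
  set V : Fin T.card → Matrix (Fin N) (Fin N) ℂ := fun c =>
    Matrix.of fun r t => conj (u (c, r) t) with hV
  have hVu : ∀ c r, adjv (V c) r = u (c, r) := by
    intro c r
    ext t
    simp [adjv, hV]
  refine ⟨fun x => if hx : x ∈ T then V (e.symm ⟨x, hx⟩) else 0, ?_, ?_, ?_⟩
  · intro i
    simp only [dif_pos (hz i)]
    set c := e.symm ⟨z i, hz i⟩ with hc
    have hec : (e c).1 = z i := by rw [hc, Equiv.apply_symm_apply]
    have hrow : ∀ r, adjv (W i) r = adjv (V c) r := by
      intro r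
      set f : Option Unit → (Fin m × Fin N) ⊕ (Fin T.card × Fin N) := fun o => match o with
        | none => Sum.inl (i, r)
        | some _ => Sum.inr (c, r) with hf
      have h1 := hu.submatrix f
      rw [AM_submatrix, gram_submatrix, gram_submatrix] at h1
      have e1 : Sum.elim (fun b : Fin m × Fin N => z b.1)
          (fun c : Fin T.card × Fin N => (e c.1).1) ∘ f = fun _ => z i := by
        funext o
        rcases o with _ | o
        · rfl
        · exact hec
      rw [e1] at h1
      have h2 := one_point hk (z i) _ _ h1 (ocons 1 (fun _ => -1)) (by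
        rw [Fintype.sum_option]
        simp only [ocons, hf, Function.comp, Sum.elim_inl, Sum.elim_inr, one_smul,
          Finset.univ_unique, Finset.sum_singleton, neg_smul]
        rw [hec, add_neg_cancel])
      rw [Fintype.sum_option] at h2
      simp only [ocons, hf, Function.comp, Sum.elim_inl, Sum.elim_inr, one_smul,
        Finset.univ_unique, Finset.sum_singleton, neg_smul] at h2
      rw [hVu]
      exact add_neg_eq_zero.1 h2
    ext r t
    have h3 := congrArg (fun v : EuclideanSpace ℂ (Fin N) => conj (v t)) (hrow r)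
    simp only [adjv, Complex.conj_conj] at h3
    exact h3.symm
  · intro x hx
    simp only [dif_neg hx]
  · have h1 := hu.submatrix (fun c : T × Fin N => Sum.inr (e.symm c.1, c.2))
    have e1 : (AM k l (Sum.elim (fun b : Fin m × Fin N => z b.1)
          (fun c : Fin T.card × Fin N => (e c.1).1))
        (Matrix.gram ℂ (Sum.elim (fun b : Fin m × Fin N => adjv (W b.1) b.2) u))
        (Matrix.gram ℂ (Sum.elim (fun b : Fin m × Fin N => tv (a' (z b.1)) b.2)
          (fun c : Fin T.card × Fin N => tv (a' (e c.1).1) c.2)))).submatrix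
        (fun c : T × Fin N => Sum.inr (e.symm c.1, c.2))
        (fun c : T × Fin N => Sum.inr (e.symm c.1, c.2)) =
        blockM k (fun x y => l x y * h x y) (fun x : T => x.1)
          (fun x : T => if hx : x.1 ∈ T then V (e.symm ⟨x.1, hx⟩) else 0) := by
      ext b c
      simp only [AM, blockM, Matrix.submatrix_apply, Matrix.of_apply, Matrix.gram_apply,
        Sum.elim_inr, Equiv.apply_symm_apply, inner_tv, ha'T _ _ b.1.2 c.1.2, dif_pos b.1.2,
        dif_pos c.1.2, ← inner_adjv, hVu, Subtype.coe_eta]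
      ring
    rw [e1] at h1
    exact h1

/-- a bound for the values of multipliers -/
lemma entry_bound (hk : Ker k) (hl : Ker l) {N : ℕ} {ι : Type*} (z : ι → X)
    (W : ι → Matrix (Fin N) (Fin N) ℂ) (h : (blockM k l z W).PosSemidef) (i : ι) (r t : Fin N) :
    ‖W i r t‖ ≤ Real.sqrt ((l (z i) (z i)).re / (k (z i) (z i)).re) := by
  have h1 := h.diag_nonneg (i := (i, r))
  simp only [blockM, Matrix.of_apply, Matrix.one_apply_eq, mul_one, ← inner_adjv] at h1
  rw [inner_self_eq_norm_sq_to_K, hk.real, hl.real] at h1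
  have h2 : (0 : ℂ) ≤ (((l (z i) (z i)).re - (k (z i) (z i)).re * ‖adjv (W i) r‖ ^ 2 : ℝ) : ℂ) := by
    push_cast
    exact h1
  have h3 := Complex.zero_le_real.1 h2
  have h4 := hk.pos (z i)
  apply Real.le_sqrt_of_sq_le
  rw [le_div_iff₀ h4]
  have h5 : ‖W i r t‖ ^ 2 ≤ ‖adjv (W i) r‖ ^ 2 := by
    rw [EuclideanSpace.norm_sq_eq]
    have : ‖W i r t‖ ^ 2 = ‖(adjv (W i) r) t‖ ^ 2 := by simp [adjv]
    rw [this]
    exact Finset.single_le_sum (f := fun t => ‖(adjv (W i) r) t‖ ^ 2)
      (fun _ _ => sq_nonneg _) (Finset.mem_univ t)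
  nlinarith

theorem cp_mul (hk : Ker k) (hl : Ker l) (hh : Ker h)
    (hpsd : ∀ T : Finset X, (Matrix.of fun x y : T => h x.1 y.1).PosSemidef) (hCP : CP k l) :
    CP k (fun x y => l x y * h x y) := by
  intro m N _ _ z W hW
  set lh : X → X → ℂ := fun x y => l x y * h x y with hlh
  have hlhK : Ker lh := hl.mul hh
  -- functions as points of a product space
  set mat : (X × (Fin N × Fin N) → ℂ) → X → Matrix (Fin N) (Fin N) ℂ := fun Ψ x =>
    Matrix.of fun r t => Ψ (x, (r, t)) with hmat
  set B : X → ℝ := fun x => Real.sqrt ((lh x x).re / (k x x).re) with hB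
  set K : Set (X × (Fin N × Fin N) → ℂ) :=
    Set.pi Set.univ fun a => Metric.closedBall 0 (B a.1) with hK
  have hKc : IsCompact K := isCompact_univ_pi fun a => isCompact_closedBall _ _
  set q : (T : Finset X) → (T × Fin N → ℂ) → (X × (Fin N × Fin N) → ℂ) → ℂ := fun T c Ψ =>
    star c ⬝ᵥ ((blockM k lh (fun x : T => x.1) (fun x : T => mat Ψ x.1)).mulVec c) with hq
  have hqc : ∀ T c, Continuous (q T c) := by
    intro T c
    rw [hq]
    simp only [quad_sum, blockM, Matrix.of_apply, Matrix.mul_apply, Matrix.conjTranspose_apply,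
      hmat]
    refine continuous_finsetSum _ fun i _ => continuous_finsetSum _ fun j _ => ?_
    refine Continuous.mul (Continuous.mul continuous_const ?_) continuous_const
    refine Continuous.sub continuous_const (Continuous.mul continuous_const ?_)
    refine continuous_finsetSum _ fun t _ => ?_
    exact (continuous_apply _).mul (continuous_star.comp (continuous_apply _))
  set C : Finset X → Set (X × (Fin N × Fin N) → ℂ) := fun T =>
    {Ψ | (∀ i r t, Ψ (z i, (r, t)) = W i r t) ∧ ∀ c, 0 ≤ q T c Ψ} with hC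
  have hCc : ∀ T, IsClosed (C T) := by
    intro T
    have e1 : C T = (⋂ i, ⋂ r, ⋂ t, {Ψ | Ψ (z i, (r, t)) = W i r t}) ∩
        ⋂ c, {Ψ | 0 ≤ q T c Ψ} := by
      ext Ψ
      simp [hC]
    rw [e1]
    refine IsClosed.inter ?_ ?_
    · exact isClosed_iInter fun i => isClosed_iInter fun r => isClosed_iInter fun t =>
        isClosed_eq (continuous_apply _) continuous_const
    · exact isClosed_iInter fun c => isClosed_le continuous_const (hqc T c)
  have hne : ∀ U : Finset (Finset X), (K ∩ ⋂ T ∈ U, C T).Nonempty := by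
    intro U
    set T0 : Finset X := U.sup id ∪ Finset.univ.image z with hT0
    obtain ⟨Φ, hΦ1, hΦ2, hΦ3⟩ := finite_ext hk hl hpsd hCP z W hW T0
      (fun i => Finset.mem_union_right _ (Finset.mem_image_of_mem _ (Finset.mem_univ i)))
    have hmatΦ : ∀ x, mat (fun a => Φ a.1 a.2.1 a.2.2) x = Φ x := by
      intro x; ext r t; rfl
    refine ⟨fun a => Φ a.1 a.2.1 a.2.2, ?_, ?_⟩
    · rw [hK]
      intro a _
      rw [mem_closedBall_zero_iff]
      by_cases ha : a.1 ∈ T0
      · exact entry_bound hk hlhK _ _ hΦ3 ⟨a.1, ha⟩ a.2.1 a.2.2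
      · have h0 : Φ a.1 a.2.1 a.2.2 = 0 := by rw [hΦ2 a.1 ha]; rfl
        change ‖Φ a.1 a.2.1 a.2.2‖ ≤ B a.1
        rw [h0, norm_zero]
        exact Real.sqrt_nonneg _
    · refine Set.mem_iInter₂.2 fun T hT => ⟨fun i r t => ?_, fun c => ?_⟩
      · change Φ (z i) r t = _
        rw [hΦ1]
      · have hsub : ∀ x ∈ T, x ∈ T0 := fun x hx => Finset.mem_union_left _
          (Finset.le_sup (f := id) hT hx)
        have h1 := hΦ3.submatrix (fun a : T × Fin N => ((⟨a.1.1, hsub _ a.1.2⟩ : T0), a.2))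
        have h2 := h1.dotProduct_mulVec_nonneg c
        rw [hq]
        simp only [hmatΦ]
        exact h2
  obtain ⟨Ψ, hΨK, hΨ⟩ := hKc.inter_iInter_nonempty C hCc hne
  have hΨ' : ∀ T, Ψ ∈ C T := fun T => Set.mem_iInter.1 hΨ T
  have hpsdT : ∀ T : Finset X,
      (blockM k lh (fun x : T => x.1) (fun x : T => mat Ψ x.1)).PosSemidef := by
    intro T
    refine Matrix.PosSemidef.of_dotProduct_mulVec_nonneg ?_ (fun c => (hΨ' T).2 c)
    rw [blockM_eq]
    exact AM_herm hk.herm hlhK.herm _ (gram_herm _) (gram_herm _)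
  refine ⟨mat Ψ, fun n y => ?_, fun i => ?_⟩
  · have h1 := (hpsdT (Finset.univ.image y)).submatrix
      (fun a : Fin n × Fin N => ((⟨y a.1, Finset.mem_image_of_mem _ (Finset.mem_univ _)⟩ :
        (Finset.univ.image y : Finset X)), a.2))
    exact h1
  · ext r t
    exact (hΨ' ∅).1 i r t

end

end Pool.Agent.H159.CPair
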