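import Pool.Agent.H159.CPair.Ext

set_option autoImplicit false

open scoped BigOperators ComplexConjugate ComplexOrder

namespace Pool.Agent.H159.CPair

variable {X : Type*}

/-- what we need of a kernel -/
structure Ker (k : X → X → ℂ) : Prop where
  herm : ∀ x y, conj (k x y) = k y x
  pos : ∀ x, 0 < (k x x).re

lemma Ker.real {k : X → X → ℂ} (hk : Ker k) (x : X) : k x x = ((k x x).re : ℂ) :=
  (Complex.conj_eq_iff_real.1 (hk.herm x x)).elim fun r hr => by rw [hr]; simp

/-- the positivity matrix of a list -/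
noncomputable def AM {ι : Type*} (k l : X → X → ℂ) (z : ι → X) (P Q : Matrix ι ι ℂ) :
    Matrix ι ι ℂ :=
  Matrix.of fun i j => l (z i) (z j) * Q i j - k (z i) (z j) * P i j

/-- Schur complement of a kernel at `p` -/
noncomputable def sc (k : X → X → ℂ) (p x y : X) : ℂ := k x y - k x p * k p y / k p p

/-- the same for the Schur complements at `p` -/
noncomputable def BM {ι : Type*} (k l : X → X → ℂ) (p : X) (z : ι → X) (P Q : Matrix ι ι ℂ) :
    Matrix ι ι ℂ := AM (sc k p) (sc l p) z P Q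

/-- the tangential property for lists in `S` and the new point `p` -/
def Star (k l : X → X → ℂ) (S : Finset X) (p : X) : Prop :=
  ∀ (ι : Type) [Fintype ι] (z : ι → X) (P Q : Matrix ι ι ℂ), (∀ i, z i ∈ S) → P.PosSemidef →
    Q.PosSemidef → (AM k l z P Q).PosSemidef → (BM k l p z P Q).PosSemidef

lemma AM_submatrix {ι κ : Type*} (k l : X → X → ℂ) (z : ι → X) (P Q : Matrix ι ι ℂ)
    (f : κ → ι) : (AM k l z P Q).submatrix f f = AM k l (z ∘ f) (P.submatrix f f)
      (Q.submatrix f f) := rfl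

lemma gram_submatrix {E : Type*} [NormedAddCommGroup E] [InnerProductSpace ℂ E] {ι κ : Type*}
    (v : ι → E) (f : κ → ι) : (Matrix.gram ℂ v).submatrix f f = Matrix.gram ℂ (v ∘ f) := rfl

section ext

variable {E F : Type*} [NormedAddCommGroup E] [InnerProductSpace ℂ E] [CompleteSpace E]
  [NormedAddCommGroup F] [InnerProductSpace ℂ F] {k l : X → X → ℂ}

/-- adding one vector -/
def ocons {ι α : Type*} (a : α) (f : ι → α) : Option ι → α
  | none => a
  | some i => f i

lemma quad_sum {ι : Type*} [Fintype ι] (A : Matrix ι ι ℂ) (c : ι → ℂ) :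
    star c ⬝ᵥ (A.mulVec c) = ∑ i, ∑ j, conj (c i) * A i j * c j := by
  simp only [dotProduct, Matrix.mulVec, Pi.star_apply, Finset.mul_sum]
  refine Finset.sum_congr rfl fun i _ => Finset.sum_congr rfl fun j _ => ?_
  simp [mul_assoc]

lemma quad_gram {V : Type*} [NormedAddCommGroup V] [InnerProductSpace ℂ V] {ι : Type*}
    [Fintype ι] (v : ι → V) (c : ι → ℂ) :
    star c ⬝ᵥ ((Matrix.gram ℂ v).mulVec c) = ((‖∑ i, c i • v i‖ ^ 2 : ℝ) : ℂ) := by
  rw [Matrix.star_dotProduct_gram_mulVec, inner_self_eq_norm_sq_to_K]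
  push_cast
  rfl

lemma BM_eq {ι : Type*} (hk : Ker k) (hl : Ker l) (p : X) (z : ι → X)
    (ξ : ι → F) (η : ι → E) :
    BM k l p z (Matrix.gram ℂ η) (Matrix.gram ℂ ξ) = AM k l z (Matrix.gram ℂ η) (Matrix.gram ℂ ξ)
      - ((l p p)⁻¹) • Matrix.gram ℂ (fun i => l p (z i) • ξ i)
      + ((k p p)⁻¹) • Matrix.gram ℂ (fun i => k p (z i) • η i) := by
  ext i j
  simp only [BM, AM, sc, Matrix.of_apply, Matrix.add_apply, Matrix.sub_apply, Matrix.smul_apply,
    Matrix.gram_apply, inner_smul_left, inner_smul_right, hk.herm, hl.herm, smul_eq_mul]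
  ring

lemma BM_quad {ι : Type*} [Fintype ι] (hk : Ker k) (hl : Ker l) (p : X) (z : ι → X)
    (ξ : ι → F) (η : ι → E) (c : ι → ℂ) :
    star c ⬝ᵥ ((BM k l p z (Matrix.gram ℂ η) (Matrix.gram ℂ ξ)).mulVec c) =
      star c ⬝ᵥ ((AM k l z (Matrix.gram ℂ η) (Matrix.gram ℂ ξ)).mulVec c)
      - (((l p p).re)⁻¹ : ℝ) * ((‖∑ i, c i • (l p (z i) • ξ i)‖ ^ 2 : ℝ) : ℂ)
      + (((k p p).re)⁻¹ : ℝ) * ((‖∑ i, c i • (k p (z i) • η i)‖ ^ 2 : ℝ) : ℂ) := by
  rw [BM_eq hk hl, Matrix.add_mulVec, Matrix.sub_mulVec, dotProduct_add, dotProduct_sub,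
    Matrix.smul_mulVec, Matrix.smul_mulVec, dotProduct_smul, dotProduct_smul, quad_gram,
    quad_gram, hk.real p, hl.real p]
  simp only [smul_eq_mul, Complex.ofReal_inv, Complex.ofReal_re]

/-- one vector extension -/
theorem ext_one {ι : Type*} [Fintype ι] (hk : Ker k) (hl : Ker l) (p : X) (z : ι → X)
    (ξ : ι → F) (η : ι → E)
    (hA : (AM k l z (Matrix.gram ℂ η) (Matrix.gram ℂ ξ)).PosSemidef)
    (hB : (BM k l p z (Matrix.gram ℂ η) (Matrix.gram ℂ ξ)).PosSemidef) (v : F) :
    ∃ u : E, (AM k l (ocons p z) (Matrix.gram ℂ (ocons u η))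
      (Matrix.gram ℂ (ocons v ξ))).PosSemidef := by
  obtain ⟨m, hm⟩ := gram_of_psd hA
  obtain ⟨α, hα⟩ := hm m le_rfl
  have hkp := hk.pos p
  have hlp := hl.pos p
  have hc : ∀ c : ι → ℂ, ‖∑ i, c i • (l p (z i) • ξ i)‖ ^ 2 ≤
      (l p p).re * (‖∑ i, c i • α i‖ ^ 2 + ‖∑ i, c i • (k p (z i) • η i)‖ ^ 2 / (k p p).re) := by
    intro c
    have h1 := hB.dotProduct_mulVec_nonneg c
    rw [BM_quad hk hl, hα, quad_gram] at h1
    have h2 : (0 : ℂ) ≤ ((‖∑ i, c i • α i‖ ^ 2
      - ((l p p).re)⁻¹ * ‖∑ i, c i • (l p (z i) • ξ i)‖ ^ 2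
      + ((k p p).re)⁻¹ * ‖∑ i, c i • (k p (z i) • η i)‖ ^ 2 : ℝ) : ℂ) := by
      push_cast at h1 ⊢
      exact h1
    have h3 := Complex.zero_le_real.1 h2
    have h4 : ‖∑ i, c i • (l p (z i) • ξ i)‖ ^ 2 =
        (l p p).re * (((l p p).re)⁻¹ * ‖∑ i, c i • (l p (z i) • ξ i)‖ ^ 2) := by
      field_simp
    rw [h4]
    refine mul_le_mul_of_nonneg_left ?_ hlp.le
    rw [div_eq_inv_mul]
    linarith
  obtain ⟨g, u, hgu, hn⟩ := lemP α (fun i => l p (z i) • ξ i) (fun i => k p (z i) • η i) hlp hkp hc v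
  refine ⟨u, ?_⟩
  set δ : ℝ := (l p p).re * ‖v‖ ^ 2 - (k p p).re * ‖u‖ ^ 2 - ‖g‖ ^ 2 with hδ
  have hδ0 : 0 ≤ δ := by rw [hδ]; linarith
  set w : Option ι → WithLp 2 (EuclideanSpace ℂ (Fin m) × ℂ) :=
    ocons (WithLp.toLp 2 (g, ((Real.sqrt δ : ℝ) : ℂ))) (fun i => WithLp.toLp 2 (α i, 0)) with hw
  have hkey : ∀ i, inner ℂ (α i) g =
      l (z i) p * inner ℂ (ξ i) v - k (z i) p * inner ℂ (η i) u := by
    intro i
    have h1 := congrArg conj (hgu i)
    rw [map_add, inner_conj_symm, inner_conj_symm, inner_conj_symm, inner_smul_left,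
      inner_smul_left, hk.herm, hl.herm] at h1
    rw [h1]; ring
  have hkey' : ∀ i, inner ℂ g (α i) =
      l p (z i) * inner ℂ v (ξ i) - k p (z i) * inner ℂ u (η i) := by
    intro i
    have h1 := hgu i
    rw [inner_smul_right, inner_smul_right] at h1
    rw [h1]; ring
  have hgram : AM k l (ocons p z) (Matrix.gram ℂ (ocons u η)) (Matrix.gram ℂ (ocons v ξ)) =
      Matrix.gram ℂ w := by
    ext a b
    rcases a with _ | i <;> rcases b with _ | j
    · simp only [AM, Matrix.of_apply, Matrix.gram_apply, ocons, hw, WithLp.prod_inner_apply]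
      rw [inner_self_eq_norm_sq_to_K, inner_self_eq_norm_sq_to_K, inner_self_eq_norm_sq_to_K,
        hl.real p, hk.real p]
      simp only [RCLike.inner_apply, Complex.conj_ofReal]
      have h1 : ((Real.sqrt δ : ℝ) : ℂ) * ((Real.sqrt δ : ℝ) : ℂ) = (δ : ℂ) := by
        rw [← Complex.ofReal_mul, Real.mul_self_sqrt hδ0]
      rw [h1, hδ]
      push_cast
      simp only [Complex.coe_algebraMap]
      ring
    · simp only [AM, Matrix.of_apply, Matrix.gram_apply, ocons, hw, WithLp.prod_inner_apply,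
        inner_zero_right, add_zero]
      exact (hkey' j).symm
    · simp only [AM, Matrix.of_apply, Matrix.gram_apply, ocons, hw, WithLp.prod_inner_apply,
        inner_zero_left, add_zero]
      exact (hkey i).symm
    · simp only [AM, Matrix.of_apply, Matrix.gram_apply, ocons, hw, WithLp.prod_inner_apply,
        inner_zero_left, add_zero]
      have := congrFun (congrFun hα i) j
      simp only [AM, Matrix.of_apply, Matrix.gram_apply] at this
      exact this
  rw [hgram]
  exact Matrix.posSemidef_gram ℂ w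

/-- several vectors -/
theorem ext_many (hk : Ker k) (hl : Ker l) (T : Finset X) (hT : ∀ q ∈ T, Star k l T q)
    {ι : Type} [Fintype ι] (z : ι → X) (hz : ∀ i, z i ∈ T) (ξ : ι → F) (η : ι → E)
    (hA : (AM k l z (Matrix.gram ℂ η) (Matrix.gram ℂ ξ)).PosSemidef)
    (κ : Type) [Fintype κ] : ∀ (y : κ → X), (∀ j, y j ∈ T) → ∀ (v : κ → F), ∃ u : κ → E,
      (AM k l (Sum.elim z y) (Matrix.gram ℂ (Sum.elim η u))
        (Matrix.gram ℂ (Sum.elim ξ v))).PosSemidef := by
  classical
  refine Finite.induction_empty_option (P := fun κ => ∀ (y : κ → X), (∀ j, y j ∈ T) →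
    ∀ (v : κ → F), ∃ u : κ → E, (AM k l (Sum.elim z y) (Matrix.gram ℂ (Sum.elim η u))
        (Matrix.gram ℂ (Sum.elim ξ v))).PosSemidef) ?_ ?_ ?_ κ
  · intro α β e ih y hy v
    obtain ⟨u, hu⟩ := ih (y ∘ e) (fun j => hy _) (v ∘ e)
    refine ⟨u ∘ e.symm, ?_⟩
    have h1 := hu.submatrix (Sum.map id e.symm)
    rw [AM_submatrix, gram_submatrix, gram_submatrix] at h1
    have e1 : Sum.elim z (y ∘ e) ∘ Sum.map id e.symm = Sum.elim z y := by
      funext a; rcases a with a | a <;> simp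
    have e2 : Sum.elim η u ∘ Sum.map id e.symm = Sum.elim η (u ∘ e.symm) := by
      funext a; rcases a with a | a <;> simp
    have e3 : Sum.elim ξ (v ∘ e) ∘ Sum.map id e.symm = Sum.elim ξ v := by
      funext a; rcases a with a | a <;> simp
    rw [e1, e2, e3] at h1
    exact h1
  · intro y hy v
    refine ⟨fun a => a.elim, ?_⟩
    set f : ι ⊕ PEmpty → ι := fun a => Sum.elim id (fun b => b.elim) a with hf
    have h1 := hA.submatrix f
    rw [AM_submatrix, gram_submatrix, gram_submatrix] at h1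
    have e1 : z ∘ f = Sum.elim z y := by
      funext a; rcases a with a | a <;> [rfl; exact a.elim]
    have e2 : η ∘ f = Sum.elim η (fun a => a.elim) := by
      funext a; rcases a with a | a <;> [rfl; exact a.elim]
    have e3 : ξ ∘ f = Sum.elim ξ v := by
      funext a; rcases a with a | a <;> [rfl; exact a.elim]
    rw [e1, e2, e3] at h1
    exact h1
  · intro α _ ih y hy v
    obtain ⟨u, hu⟩ := ih (y ∘ some) (fun j => hy _) (v ∘ some)
    have hB := hT (y none) (hy none) (ι ⊕ α) (Sum.elim z (y ∘ some)) _ _ (by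
      intro a; rcases a with a | a
      · exact hz a
      · exact hy _) (Matrix.posSemidef_gram ℂ _) (Matrix.posSemidef_gram ℂ _) hu
    obtain ⟨u0, hu0⟩ := ext_one hk hl (y none) _ _ _ hu hB (v none)
    refine ⟨fun o => ocons u0 u o, ?_⟩
    set f : ι ⊕ Option α → Option (ι ⊕ α) := fun a => match a with
      | Sum.inl i => some (Sum.inl i)
      | Sum.inr none => none
      | Sum.inr (some j) => some (Sum.inr j) with hf
    have h1 := hu0.submatrix f
    rw [AM_submatrix, gram_submatrix, gram_submatrix] at h1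
    have e1 : ocons (y none) (Sum.elim z (y ∘ some)) ∘ f = Sum.elim z y := by
      funext a; rcases a with a | (_ | a) <;> rfl
    have e2 : ocons u0 (Sum.elim η u) ∘ f = Sum.elim η (fun o => ocons u0 u o) := by
      funext a; rcases a with a | (_ | a) <;> rfl
    have e3 : ocons (v none) (Sum.elim ξ (v ∘ some)) ∘ f = Sum.elim ξ v := by
      funext a; rcases a with a | (_ | a) <;> rfl
    rw [e1, e2, e3] at h1
    exact h1

end ext

lemma BM_herm {k l : X → X → ℂ} (hk : Ker k) (hl : Ker l) (q : X) {ι : Type*} (z : ι → X)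
    {P Q : Matrix ι ι ℂ} (hP : P.IsHermitian) (hQ : Q.IsHermitian) :
    (BM k l q z P Q).IsHermitian := by
  ext i j
  have hPh := congrFun (congrFun hP i) j
  have hQh := congrFun (congrFun hQ i) j
  simp only [Matrix.conjTranspose_apply] at hPh hQh
  simp only [BM, AM, sc, Matrix.conjTranspose_apply, Matrix.of_apply]
  rw [← hPh, ← hQh]
  simp only [RCLike.star_def, map_sub, map_mul, map_div₀, hk.herm, hl.herm]
  ring

/-- lists which may also contain `q` itself -/
theorem star_insert {k l : X → X → ℂ} (hk : Ker k) (hl : Ker l) [DecidableEq X] {S : Finset X}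
    {q : X} (h : Star k l S q) : Star k l (insert q S) q := by
  classical
  intro ι _ z P Q hz hP hQ hA
  set ι' := {i : ι // z i ≠ q} with hι'
  set f : ι' → ι := fun i => i.1 with hf
  have h1 := h ι' (z ∘ f) (P.submatrix f f) (Q.submatrix f f) (fun i => by
    rcases Finset.mem_insert.1 (hz i.1) with h | h
    · exact absurd h i.2
    · exact h) (hP.submatrix f) (hQ.submatrix f) (by
      rw [← AM_submatrix]; exact hA.submatrix f)
  have hqq : ∀ {k : X → X → ℂ}, Ker k → k q q ≠ 0 := fun hk h0 => by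
    have := hk.pos q
    rw [h0] at this
    simp at this
  have z1 : ∀ {k : X → X → ℂ}, Ker k → ∀ y, sc k q q y = 0 := fun hk y => by
    unfold sc
    rw [mul_comm, mul_div_assoc, div_self (hqq hk), mul_one, sub_self]
  have z2 : ∀ {k : X → X → ℂ}, Ker k → ∀ y, sc k q y q = 0 := fun hk y => by
    unfold sc
    rw [mul_div_assoc, div_self (hqq hk), mul_one, sub_self]
  have hherm : (BM k l q z P Q).IsHermitian := BM_herm hk hl q z hP.1 hQ.1
  refine Matrix.PosSemidef.of_dotProduct_mulVec_nonneg hherm fun c => ?_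
  have h2 := h1.dotProduct_mulVec_nonneg (c ∘ f)
  rw [quad_sum] at h2 ⊢
  have h3 : ∀ g : ι → ℂ, (∀ i, z i = q → g i = 0) → ∑ i, g i = ∑ i : ι', g i.1 := by
    intro g hg
    rw [← Fintype.sum_subtype_add_sum_subtype (fun i => z i ≠ q) g]
    have : ∑ i : {i // ¬ (z i ≠ q)}, g i.1 = 0 :=
      Finset.sum_eq_zero fun i _ => hg i.1 (not_not.1 i.2)
    rw [this, add_zero]
  rw [h3]
  · have h4 : ∀ i : ι', ∑ j, conj (c i.1) * BM k l q z P Q i.1 j * c j =
        ∑ j : ι', conj (c i.1) * BM k l q z P Q i.1 j.1 * c j.1 := by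
      intro i
      refine h3 _ fun j hj => ?_
      simp only [BM, AM, Matrix.of_apply]
      rw [hj, z2 hk, z2 hl]; simp
    rw [Finset.sum_congr rfl fun i _ => h4 i]
    exact h2
  · intro i hi
    refine Finset.sum_eq_zero fun j _ => ?_
    simp only [BM, AM, Matrix.of_apply]
    rw [hi, z1 hk, z1 hl]; simp

end Pool.Agent.H159.CPair
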