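import Pool.Agent.H159.CPair.List

set_option autoImplicit false

open scoped BigOperators ComplexConjugate ComplexOrder

namespace Pool.Agent.H159.CPair

variable {X : Type*}

/-- the block matrix of the Pick problem -/
noncomputable def blockM {ι : Type*} {N : ℕ} (k l : X → X → ℂ) (z : ι → X)
    (W : ι → Matrix (Fin N) (Fin N) ℂ) : Matrix (ι × Fin N) (ι × Fin N) ℂ :=
  Matrix.of fun a b => l (z a.1) (z b.1) * (1 : Matrix (Fin N) (Fin N) ℂ) a.2 b.2 -
    k (z a.1) (z b.1) * (W a.1 * (W b.1).conjTranspose) a.2 b.2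

/-- `W* e_r` -/
noncomputable def adjv {N : ℕ} (W : Matrix (Fin N) (Fin N) ℂ) (r : Fin N) :
    EuclideanSpace ℂ (Fin N) := WithLp.toLp 2 fun t => conj (W r t)

/-- `e_r` -/
noncomputable def ev {N : ℕ} (r : Fin N) : EuclideanSpace ℂ (Fin N) := EuclideanSpace.single r 1

lemma inner_adjv {N : ℕ} (V W : Matrix (Fin N) (Fin N) ℂ) (r s : Fin N) :
    inner ℂ (adjv V r) (adjv W s) = (V * W.conjTranspose) r s := by
  rw [PiLp.inner_apply, Matrix.mul_apply]
  refine Finset.sum_congr rfl fun t _ => ?_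
  simp [adjv, mul_comm]

lemma inner_ev {N : ℕ} (r s : Fin N) :
    inner ℂ (ev r) (ev s) = (1 : Matrix (Fin N) (Fin N) ℂ) r s := by
  have h := (EuclideanSpace.basisFun (Fin N) ℂ).orthonormal
  rw [orthonormal_iff_ite] at h
  have := h r s
  simp only [EuclideanSpace.basisFun_apply] at this
  unfold ev
  rw [this, Matrix.one_apply]

lemma sum_ev {N : ℕ} (x : EuclideanSpace ℂ (Fin N)) : ∑ r, x r • ev r = x := by
  have h := (EuclideanSpace.basisFun (Fin N) ℂ).sum_repr x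
  simpa [ev] using h

lemma blockM_eq {ι : Type*} {N : ℕ} (k l : X → X → ℂ) (z : ι → X)
    (W : ι → Matrix (Fin N) (Fin N) ℂ) :
    blockM k l z W = AM k l (fun a : ι × Fin N => z a.1)
      (Matrix.gram ℂ fun a : ι × Fin N => adjv (W a.1) a.2)
      (Matrix.gram ℂ fun a : ι × Fin N => ev a.2) := by
  ext a b
  simp only [blockM, AM, Matrix.of_apply, Matrix.gram_apply, inner_adjv, inner_ev]

lemma inner_ss {V : Type*} [NormedAddCommGroup V] [InnerProductSpace ℂ V] {ρ σ : Type*}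
    [Fintype ρ] [Fintype σ] (a : ρ → ℂ) (b : σ → ℂ) (f : ρ → V) (g : σ → V) :
    inner ℂ (∑ r, a r • f r) (∑ s, b s • g s) =
      ∑ r, ∑ s, conj (a r) * b s * inner ℂ (f r) (g s) := by
  rw [sum_inner]
  refine Finset.sum_congr rfl fun r _ => ?_
  rw [inner_sum]
  refine Finset.sum_congr rfl fun s _ => ?_
  rw [inner_smul_left, inner_smul_right]
  ring

/-- contractive multiplier -/
def Contr {N : ℕ} (k l : X → X → ℂ) (Φ : X → Matrix (Fin N) (Fin N) ℂ) : Prop :=
  ∀ (m : ℕ) (z : Fin m → X), (blockM k l z (Φ ∘ z)).PosSemidef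

lemma Contr.fintype {N : ℕ} {k l : X → X → ℂ} {Φ : X → Matrix (Fin N) (Fin N) ℂ}
    (h : Contr k l Φ) {ι : Type*} [Fintype ι] (z : ι → X) : (blockM k l z (Φ ∘ z)).PosSemidef := by
  have e := Fintype.equivFin ι
  have h1 := (h _ (z ∘ e.symm)).submatrix (fun a : ι × Fin N => (e a.1, a.2))
  have h2 : (blockM k l (z ∘ e.symm) (Φ ∘ (z ∘ e.symm))).submatrix
      (fun a : ι × Fin N => (e a.1, a.2)) (fun a : ι × Fin N => (e a.1, a.2)) =
      blockM k l z (Φ ∘ z) := by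
    ext a b
    simp [blockM]
  rw [h2] at h1
  exact h1

/-- `W* x` -/
noncomputable def adjm {N : ℕ} (W : Matrix (Fin N) (Fin N) ℂ) (x : EuclideanSpace ℂ (Fin N)) :
    EuclideanSpace ℂ (Fin N) := ∑ r, x r • adjv W r

lemma Contr.list {N : ℕ} {k l : X → X → ℂ} {Φ : X → Matrix (Fin N) (Fin N) ℂ}
    (h : Contr k l Φ) {ι : Type*} [Fintype ι] (z : ι → X) (x : ι → EuclideanSpace ℂ (Fin N)) :
    (AM k l z (Matrix.gram ℂ fun i => adjm (Φ (z i)) (x i)) (Matrix.gram ℂ x)).PosSemidef := by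
  obtain ⟨m, hm⟩ := gram_of_psd (h.fintype z)
  obtain ⟨β, hβ⟩ := hm m le_rfl
  have h1 : AM k l z (Matrix.gram ℂ fun i => adjm (Φ (z i)) (x i)) (Matrix.gram ℂ x) =
      Matrix.gram ℂ fun i => ∑ r, x i r • β (i, r) := by
    ext i j
    have h2 : ∀ r s, inner ℂ (β (i, r)) (β (j, s)) = l (z i) (z j) * inner ℂ (ev r) (ev s) -
        k (z i) (z j) * inner ℂ (adjv (Φ (z i)) r) (adjv (Φ (z j)) s) := by
      intro r s
      have := congrFun (congrFun hβ (i, r)) (j, s)
      rw [blockM_eq] at this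
      simp only [AM, Matrix.of_apply, Matrix.gram_apply, Function.comp] at this
      exact this.symm
    have h3 : inner ℂ (x i) (x j) = ∑ r, ∑ s, conj (x i r) * x j s * inner ℂ (ev r) (ev s) := by
      conv_lhs => rw [← sum_ev (x i), ← sum_ev (x j)]
      exact inner_ss _ _ _ _
    simp only [AM, Matrix.of_apply, Matrix.gram_apply]
    rw [h3]
    unfold adjm
    rw [inner_ss, inner_ss, Finset.mul_sum, Finset.mul_sum, ← Finset.sum_sub_distrib]
    refine Finset.sum_congr rfl fun r _ => ?_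
    rw [Finset.mul_sum, Finset.mul_sum, ← Finset.sum_sub_distrib]
    refine Finset.sum_congr rfl fun s _ => ?_
    rw [h2]
    ring
  rw [h1]
  exact Matrix.posSemidef_gram ℂ _

/-- data at one point -/
lemma one_point {k l : X → X → ℂ} (hk : Ker k) (q : X) {ι : Type*} [Fintype ι]
    {E F : Type*} [NormedAddCommGroup E] [InnerProductSpace ℂ E]
    [NormedAddCommGroup F] [InnerProductSpace ℂ F] (ξ : ι → F) (η : ι → E)
    (h : (AM k l (fun _ => q) (Matrix.gram ℂ η) (Matrix.gram ℂ ξ)).PosSemidef) (c : ι → ℂ)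
    (hc : ∑ i, c i • ξ i = 0) : ∑ i, c i • η i = 0 := by
  have h1 := h.dotProduct_mulVec_nonneg c
  have h2 : AM k l (fun _ => q) (Matrix.gram ℂ η) (Matrix.gram ℂ ξ) =
      l q q • Matrix.gram ℂ ξ - k q q • Matrix.gram ℂ η := by
    ext i j
    simp [AM, Matrix.gram_apply]
  rw [h2, Matrix.sub_mulVec, dotProduct_sub, Matrix.smul_mulVec, Matrix.smul_mulVec,
    dotProduct_smul, dotProduct_smul, quad_gram, quad_gram, hc, norm_zero, hk.real q] at h1
  simp only [smul_eq_mul] at h1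
  have h3 : (0 : ℂ) ≤ ((-((k q q).re * ‖∑ i, c i • η i‖ ^ 2) : ℝ) : ℂ) := by
    push_cast
    simpa using h1
  have h4 := Complex.zero_le_real.1 h3
  have h5 := hk.pos q
  have h6 : ‖∑ i, c i • η i‖ ^ 2 ≤ 0 := by
    by_contra hcon
    push Not at hcon
    nlinarith [mul_pos h5 hcon]
  exact norm_eq_zero.1 (by nlinarith [norm_nonneg (∑ i, c i • η i)])

/-- a contractive multiplier gives the Schur complement inequality -/
lemma Contr.schur {N : ℕ} {k l : X → X → ℂ} (hk : Ker k) (hl : Ker l)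
    {Φ : X → Matrix (Fin N) (Fin N) ℂ} (h : Contr k l Φ) (p : X) {ι : Type*} [Fintype ι] (z : ι → X)
    (ξ : ι → EuclideanSpace ℂ (Fin N)) :
    (BM k l p z (Matrix.gram ℂ fun i => adjm (Φ (z i)) (ξ i)) (Matrix.gram ℂ ξ)).PosSemidef := by
  set η : ι → EuclideanSpace ℂ (Fin N) := fun i => adjm (Φ (z i)) (ξ i) with hη
  refine Matrix.PosSemidef.of_dotProduct_mulVec_nonneg (BM_herm hk hl p z
    (Matrix.posSemidef_gram ℂ η).1 (Matrix.posSemidef_gram ℂ ξ).1) fun c => ?_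
  rw [BM_quad hk hl]
  set L := ∑ i, c i • (l p (z i) • ξ i) with hL
  set M := ∑ i, c i • (k p (z i) • η i) with hM
  set u := adjm (Φ p) L with hu
  have h1 := h.list (ocons p z) (ocons L ξ)
  obtain ⟨m, hm⟩ := gram_of_psd h1
  obtain ⟨β, hβ⟩ := hm m le_rfl
  have hA : AM k l z (Matrix.gram ℂ η) (Matrix.gram ℂ ξ) = Matrix.gram ℂ (fun i => β (some i)) := by
    ext i j
    have := congrFun (congrFun hβ (some i)) (some j)
    simp only [AM, Matrix.of_apply, Matrix.gram_apply, ocons] at this ⊢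
    exact this
  have h0i : ∀ i, inner ℂ (β none) (β (some i)) =
      l p (z i) * inner ℂ L (ξ i) - k p (z i) * inner ℂ u (η i) := by
    intro i
    have := congrFun (congrFun hβ none) (some i)
    simp only [AM, Matrix.of_apply, Matrix.gram_apply, ocons] at this
    exact this.symm
  have h00 : ((‖β none‖ ^ 2 : ℝ) : ℂ) =
      (((l p p).re * ‖L‖ ^ 2 - (k p p).re * ‖u‖ ^ 2 : ℝ) : ℂ) := by
    have := congrFun (congrFun hβ none) none
    simp only [AM, Matrix.of_apply, Matrix.gram_apply, ocons] at this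
    rw [inner_self_eq_norm_sq_to_K, inner_self_eq_norm_sq_to_K, inner_self_eq_norm_sq_to_K,
      hl.real p, hk.real p] at this
    push_cast
    exact this.symm
  have h00' := Complex.ofReal_injective h00
  set b := ∑ i, c i • β (some i) with hb
  have hib : inner ℂ (β none) b = inner ℂ L L - inner ℂ u M := by
    rw [hb, inner_sum]
    conv_rhs => rw [show inner ℂ L L = inner ℂ L (∑ i, c i • (l p (z i) • ξ i)) from rfl, hM]
    rw [inner_sum, inner_sum, ← Finset.sum_sub_distrib]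
    refine Finset.sum_congr rfl fun i _ => ?_
    rw [inner_smul_right, inner_smul_right, inner_smul_right, inner_smul_right, inner_smul_right,
      h0i]
    ring
  rw [hA, quad_gram]
  have hre : (inner ℂ (β none) b).re = ‖L‖ ^ 2 - (inner ℂ u M).re := by
    rw [hib, Complex.sub_re]
    congr 1
    exact inner_self_eq_norm_sq (𝕜 := ℂ) L
  set ℓ := (l p p).re with hℓ
  set κ := (k p p).re with hκ
  have hℓ0 : 0 < ℓ := hl.pos p
  have hκ0 : 0 < κ := hk.pos p
  have h5 : 0 ≤ ‖b‖ ^ 2 - 2 * ℓ⁻¹ * (inner ℂ (β none) b).re + ℓ⁻¹ ^ 2 * ‖β none‖ ^ 2 := by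
    have h6 : ‖b - ((ℓ⁻¹ : ℝ) : ℂ) • β none‖ ^ 2 =
        ‖b‖ ^ 2 - 2 * ℓ⁻¹ * (inner ℂ (β none) b).re + ℓ⁻¹ ^ 2 * ‖β none‖ ^ 2 := by
      rw [@norm_sub_sq ℂ, inner_smul_right, norm_smul, mul_pow, Complex.norm_real,
        Real.norm_eq_abs, sq_abs]
      have h7 : RCLike.re (((ℓ⁻¹ : ℝ) : ℂ) * inner ℂ b (β none)) =
          ℓ⁻¹ * (inner ℂ (β none) b).re := by
        rw [← inner_conj_symm b (β none)]
        change ((((ℓ⁻¹ : ℝ) : ℂ) * conj (inner ℂ (β none) b))).re = _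
        rw [Complex.re_ofReal_mul, Complex.conj_re]
      rw [h7]
      ring
    rw [← h6]
    positivity
  have h8 : 2 * ℓ⁻¹ * (inner ℂ u M).re ≤ κ * (ℓ⁻¹ * ‖u‖) ^ 2 + κ⁻¹ * ‖M‖ ^ 2 := by
    have h9 : (inner ℂ u M).re ≤ ‖u‖ * ‖M‖ :=
      (Complex.re_le_norm _).trans (norm_inner_le_norm u M)
    have h10 : 2 * ℓ⁻¹ * (inner ℂ u M).re ≤ 2 * ℓ⁻¹ * (‖u‖ * ‖M‖) :=
      mul_le_mul_of_nonneg_left h9 (by positivity)
    have h11 : κ * (ℓ⁻¹ * ‖u‖) ^ 2 + κ⁻¹ * ‖M‖ ^ 2 - 2 * ℓ⁻¹ * (‖u‖ * ‖M‖) =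
        κ⁻¹ * (κ * (ℓ⁻¹ * ‖u‖) - ‖M‖) ^ 2 := by
      field_simp
      ring
    have h12 : 0 ≤ κ⁻¹ * (κ * (ℓ⁻¹ * ‖u‖) - ‖M‖) ^ 2 := by positivity
    linarith
  have h13 : 0 ≤ ‖b‖ ^ 2 - ℓ⁻¹ * ‖L‖ ^ 2 + κ⁻¹ * ‖M‖ ^ 2 := by
    rw [hre, h00'] at h5
    have h14 : ℓ⁻¹ ^ 2 * (ℓ * ‖L‖ ^ 2 - κ * ‖u‖ ^ 2) = ℓ⁻¹ * ‖L‖ ^ 2 - κ * (ℓ⁻¹ * ‖u‖) ^ 2 := by
      field_simp
    rw [h14] at h5
    nlinarith
  have h15 : ((‖b‖ ^ 2 : ℝ) : ℂ) - ((ℓ⁻¹ : ℝ) : ℂ) * ((‖L‖ ^ 2 : ℝ) : ℂ)
      + ((κ⁻¹ : ℝ) : ℂ) * ((‖M‖ ^ 2 : ℝ) : ℂ) =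
      ((‖b‖ ^ 2 - ℓ⁻¹ * ‖L‖ ^ 2 + κ⁻¹ * ‖M‖ ^ 2 : ℝ) : ℂ) := by push_cast; ring
  rw [h15]
  exact Complex.zero_le_real.2 h13

/-- the complete Pick property -/
def CP (k l : X → X → ℂ) : Prop :=
  ∀ (m N : ℕ), 1 ≤ m → 1 ≤ N → ∀ (z : Fin m → X) (W : Fin m → Matrix (Fin N) (Fin N) ℂ),
    (blockM k l z W).PosSemidef → ∃ Φ : X → Matrix (Fin N) (Fin N) ℂ, Contr k l Φ ∧
      ∀ i, Φ (z i) = W i

lemma posSemidef_of_isEmpty {ι : Type*} [IsEmpty ι] (A : Matrix ι ι ℂ) : A.PosSemidef := by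
  have : Fintype ι := Fintype.ofIsEmpty
  refine Matrix.PosSemidef.of_dotProduct_mulVec_nonneg ?_ fun c => ?_
  · ext i; exact isEmptyElim i
  · simp [dotProduct]

/-- the tangential property for all finite sets -/
theorem star_notMem [DecidableEq X] {k l : X → X → ℂ} (hk : Ker k) (hl : Ker l) (h : CP k l) :
    ∀ (n : ℕ) (S : Finset X), S.card = n → ∀ p, p ∉ S → Star k l S p := by
  intro n
  induction n with
  | zero =>
    intro S hS p _ ι _ z P Q hz _ _ _
    rw [Finset.card_eq_zero] at hS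
    subst hS
    have : IsEmpty ι := ⟨fun i => absurd (hz i) (Finset.notMem_empty _)⟩
    exact posSemidef_of_isEmpty _
  | succ n ih =>
    intro S hS p hp ι _ z P Q hz hP hQ hA
    have hT : ∀ q ∈ S, Star k l S q := by
      intro q hq
      have h1 := ih (S.erase q) (by rw [Finset.card_erase_of_mem hq, hS]; rfl) q
        (Finset.notMem_erase q S)
      have h2 := star_insert hk hl h1
      rwa [Finset.insert_erase hq] at h2
    obtain ⟨m1, hm1⟩ := gram_of_psd hP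
    obtain ⟨m2, hm2⟩ := gram_of_psd hQ
    set N := m1 + m2 + 1 with hN
    obtain ⟨η, hη⟩ := hm1 N (by omega)
    obtain ⟨ξ, hξ⟩ := hm2 N (by omega)
    subst hη hξ
    have e : Fin (n + 1) ≃ S := (S.equivFinOfCardEq hS).symm
    obtain ⟨u, hu⟩ := ext_many hk hl S hT z hz ξ η hA (Fin (n + 1) × Fin N)
      (fun a => (e a.1).1) (fun a => (e a.1).2) (fun a => ev a.2)
    set W : Fin (n + 1) → Matrix (Fin N) (Fin N) ℂ := fun a =>
      Matrix.of fun r t => conj (u (a, r) t) with hW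
    have hWu : ∀ a r, adjv (W a) r = u (a, r) := by
      intro a r
      ext t
      simp [adjv, hW]
    have hblock : (blockM k l (fun a => (e a).1) W).PosSemidef := by
      have h1 := hu.submatrix Sum.inr
      rw [AM_submatrix, gram_submatrix, gram_submatrix] at h1
      rw [blockM_eq]
      have e2 : (fun a : Fin (n + 1) × Fin N => adjv (W a.1) a.2) = u := by
        funext a; exact hWu a.1 a.2
      rw [e2]
      exact h1
    obtain ⟨Φ, hΦ, hΦW⟩ := h (n + 1) N (by omega) (by omega) _ W hblock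
    have hηΦ : η = fun i => adjm (Φ (z i)) (ξ i) := by
      funext i
      set a := e.symm ⟨z i, hz i⟩ with ha
      have hea : (e a).1 = z i := by rw [ha, Equiv.apply_symm_apply]
      set f : Option (Fin N) → ι ⊕ (Fin (n + 1) × Fin N) := fun o => match o with
        | none => Sum.inl i
        | some r => Sum.inr (a, r) with hf
      have h1 := hu.submatrix f
      rw [AM_submatrix, gram_submatrix, gram_submatrix] at h1
      have e1 : Sum.elim z (fun a : Fin (n + 1) × Fin N => (e a.1).1) ∘ f = fun _ => z i := by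
        funext o
        rcases o with _ | r
        · rfl
        · exact hea
      rw [e1] at h1
      have h2 := one_point hk (z i) _ _ h1 (ocons 1 (fun r => -(ξ i r))) (by
        rw [Fintype.sum_option]
        simp only [ocons, hf, Function.comp, Sum.elim_inl, Sum.elim_inr, one_smul, neg_smul,
          Finset.sum_neg_distrib]
        rw [sum_ev, add_neg_cancel])
      rw [Fintype.sum_option] at h2
      simp only [ocons, hf, Function.comp, Sum.elim_inl, Sum.elim_inr, one_smul, neg_smul,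
        Finset.sum_neg_distrib] at h2
      rw [add_neg_eq_zero.1 h2]
      unfold adjm
      refine Finset.sum_congr rfl fun r _ => ?_
      have h3 : Φ (z i) = W a := by rw [← hea]; exact hΦW a
      rw [h3, hWu]
    rw [hηΦ]
    exact hΦ.schur hk hl p z ξ

theorem star_all [DecidableEq X] {k l : X → X → ℂ} (hk : Ker k) (hl : Ker l) (h : CP k l)
    (S : Finset X) (p : X) : Star k l S p := by
  by_cases hp : p ∈ S
  · have h1 := star_insert hk hl (star_notMem hk hl h _ (S.erase p) rfl p (Finset.notMem_erase p S))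
    rwa [Finset.insert_erase hp] at h1
  · exact star_notMem hk hl h _ S rfl p hp

end Pool.Agent.H159.CPair
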